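import Pool.Agent.H48.MC.SeqG
import Pool.Agent.H47.MC.Dim

set_option linter.style.longLine false

/-! MB2, second version: for each sequence of ratios at least 20 an infinitely renormalizable real
parameter with infinitely many centres of distortion constant one nearby; if the ratios are bounded
then it belongs to `EK K`. -/

namespace Pool.Agent.H48.MC.G

open Finset Filter Topology
open Pool.Agent.H51.IR Pool.Agent.H98.MB
open Pool.Agent.H47.MB.Gen (IsC sz)
open Pool.Agent.H47.MC (Mc EK)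

theorem isC_of_centre {a : ℂ} {n : ℕ} (h : Pool.Agent.H47.MC.Centre a n) : IsC a n :=
  ⟨h.one_le, h.zero, h.ne, h.dp⟩

theorem Mc_of_centre {a : ℂ} {n : ℕ} (h : Pool.Agent.H47.MC.Centre a n) : Mc a n ≤ 1 := by
  have hA : 0 < ‖A a n‖ := norm_pos_iff.2 (Centre.A_ne h)
  have hD : 0 < ‖Dp a n‖ := norm_pos_iff.2 h.dp
  have hP := h.smallP
  have hQ := h.smallQ
  have hA2 : 0 < ‖A a n‖ ^ 2 := by positivity
  have hD2 : 0 < ‖Dp a n‖ ^ 2 := by positivity
  refine max_le le_rfl (max_le ?_ ?_)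
  · rw [div_le_one hA2]
    nlinarith
  · rw [div_le_one hD2]
    nlinarith

theorem nn_lt (q : ℕ → ℕ) (hq : ∀ k, 20 ≤ q k) (k : ℕ) : nn q k < nn q (k + 1) := by
  rw [nn_succ]
  have h1 := nn_pos (q := q) (fun k => le_trans (by norm_num) (hq k)) k
  have h2 := hq k
  nlinarith

theorem nn_strictMono (q : ℕ → ℕ) (hq : ∀ k, 20 ≤ q k) : StrictMono (nn q) :=
  strictMono_nat_of_lt_succ (nn_lt q hq)

/-- the examples -/
theorem example_of_ratios (q : ℕ → ℕ) (hq : ∀ k, 20 ≤ q k) :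
    ∃ c : ℝ, (∀ k, 1 ≤ k → IsRenorm (nn q k) (c : ℂ)) ∧ (c : ℂ) ∈ infRenorm ∧
      {p : ℂ × ℕ | IsC p.1 p.2 ∧ Mc p.1 p.2 ≤ 1 ∧ ‖(c : ℂ) - p.1‖ ≤ 2.5 / sz p.1 p.2}.Infinite ∧
      ∀ N : ℕ, (∀ k, q k ≤ N) → (c : ℂ) ∈ EK (2.5 * 25 ^ N) := by
  obtain ⟨c, a, h1, h2, h3, -, -, -, h7⟩ := seq q hq
  have hinf : (c : ℂ) ∈ infRenorm := by
    refine Set.infinite_of_injective_forall_mem (f := fun k => nn q (k + 1)) ?_ ?_
    · intro i j hij
      have := (nn_strictMono q hq).injective hij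
      omega
    · intro k
      exact (h1 (k + 1) (by omega)).1
  refine ⟨c, fun k hk => (h1 k hk).1, hinf, ?_, ?_⟩
  · refine Set.infinite_of_injective_forall_mem (f := fun k => ((a k : ℂ), nn q k)) ?_ ?_
    · intro i j hij
      exact (nn_strictMono q hq).injective (Prod.ext_iff.1 hij).2
    · intro k
      refine ⟨isC_of_centre (h2 k), Mc_of_centre (h2 k), ?_⟩
      rw [le_div_iff₀ (isC_of_centre (h2 k)).sz_pos, mul_comm]
      exact h3 k
  · intro N hN
    refine ⟨hinf, fun r hr hr1 => ?_⟩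
    obtain ⟨k, -, hk1, hk2⟩ := h7 N hN r hr hr1
    refine ⟨((a k : ℂ), nn q k), isC_of_centre (h2 k), (Mc_of_centre (h2 k)).trans ?_, hk1, hk2⟩
    have : (1 : ℝ) ≤ 25 ^ N := one_le_pow₀ (by norm_num)
    linarith

end Pool.Agent.H48.MC.G
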