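import Pool.Agent.H47.MC.Defs
import Pool.Agent.H48.MB.RowS2

set_option linter.style.longLine false

/-! MB2, second version, rows S2 and V: the limit of nested centres of constant ratio. -/

namespace Pool.Agent.H48.MC

open Finset Filter Topology
open Pool.Agent.H51.IR Pool.Agent.H98.MB
open Pool.Agent.H48.MB (continuous_crit crit_mul_eq_zero)
open Pool.Agent.H47.MB (crit_add norm_le_of_sub)

theorem Centre.A_ne {c : ℂ} {n : ℕ} (hc : Pool.Agent.H47.MC.Centre c n) : A c n ≠ 0 :=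
  A_ne_zero hc.ne

variable {q : ℕ} {c : ℕ → ℂ}

theorem scale_pos (hC : ∀ k, Pool.Agent.H47.MC.Centre (c k) (q ^ k)) (k : ℕ) :
    0 < ‖A (c k) (q ^ k)‖ * ‖Dp (c k) (q ^ k)‖ :=
  mul_pos (norm_pos_iff.2 (Centre.A_ne (hC k))) (norm_pos_iff.2 (hC k).dp)

theorem step_scale (hS : ∀ k, Pool.Agent.H47.MC.Step q (c k) (q ^ k) (c (k + 1))) (k : ℕ) :
    10 * (‖A (c k) (q ^ k)‖ * ‖Dp (c k) (q ^ k)‖) ≤
      ‖A (c (k + 1)) (q ^ (k + 1))‖ * ‖Dp (c (k + 1)) (q ^ (k + 1))‖ := by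
  have h := (hS k).scale
  rwa [← pow_succ'] at h

theorem step_upper (hS : ∀ k, Pool.Agent.H47.MC.Step q (c k) (q ^ k) (c (k + 1))) (k : ℕ) :
    ‖A (c (k + 1)) (q ^ (k + 1))‖ * ‖Dp (c (k + 1)) (q ^ (k + 1))‖ ≤
      25 ^ q * (‖A (c k) (q ^ k)‖ * ‖Dp (c k) (q ^ k)‖) := by
  have h := (hS k).upper
  rwa [← pow_succ'] at h

theorem step_mono (hS : ∀ k, Pool.Agent.H47.MC.Step q (c k) (q ^ k) (c (k + 1))) (k : ℕ) :
    ‖A (c k) (q ^ k)‖ ≤ ‖A (c (k + 1)) (q ^ (k + 1))‖ := by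
  have h := (hS k).mono
  rwa [← pow_succ'] at h

theorem dist_centres (hC : ∀ k, Pool.Agent.H47.MC.Centre (c k) (q ^ k))
    (hS : ∀ k, Pool.Agent.H47.MC.Step q (c k) (q ^ k) (c (k + 1))) (j : ℕ) :
    ∀ k, ‖A (c k) (q ^ k)‖ * ‖Dp (c k) (q ^ k)‖ * ‖c (k + j) - c k‖ ≤ 2.45 := by
  induction j with
  | zero => intro k; rw [add_zero, sub_self, norm_zero, mul_zero]; norm_num
  | succ j ih =>
    intro k
    have h1 := ih (k + 1)
    have h2 := (hS k).dist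
    have h3 := step_scale hS k
    have h0 := scale_pos hC k
    have e : k + (j + 1) = k + 1 + j := by omega
    rw [e]
    have h4 : ‖c (k + 1 + j) - c k‖ ≤ ‖c (k + 1 + j) - c (k + 1)‖ + ‖c (k + 1) - c k‖ := by
      have := norm_add_le (c (k + 1 + j) - c (k + 1)) (c (k + 1) - c k)
      rwa [sub_add_sub_cancel] at this
    have h5 := mul_le_mul_of_nonneg_right h3 (norm_nonneg (c (k + 1 + j) - c (k + 1)))
    have h6 := mul_le_mul_of_nonneg_left h4 h0.le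
    nlinarith

theorem ret_centres (hq : 1 ≤ q) (hP : Pool.Agent.H47.MC.StatP)
    (hC : ∀ k, Pool.Agent.H47.MC.Centre (c k) (q ^ k))
    (hS : ∀ k, Pool.Agent.H47.MC.Step q (c k) (q ^ k) (c (k + 1))) (j : ℕ) :
    ∀ k m, ‖A (c k) (q ^ k)‖ * ‖crit (c (k + j)) (m * q ^ k)‖ ≤ 2.5 := by
  induction j with
  | zero =>
    intro k m
    rw [add_zero, crit_mul_eq_zero (hC k).zero, norm_zero, mul_zero]
    norm_num
  | succ j ih =>
    intro k m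
    have e : k + (j + 1) = k + 1 + j := by omega
    rw [e]
    have hdm : m = (m / q) * q + m % q := by
      rw [mul_comm]; exact (Nat.div_add_mod m q).symm
    have hlt := Nat.mod_lt m hq
    set b := m / q
    set i := m % q
    have hx := ih (k + 1) b
    have hmn : m * q ^ k = b * q ^ (k + 1) + i * q ^ k := by rw [hdm, pow_succ']; ring
    rw [hmn, crit_add]
    set x := crit (c (k + 1 + j)) (b * q ^ (k + 1)) with hxdef
    rcases Nat.eq_zero_or_pos i with hi | hi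
    · rw [hi, zero_mul]
      exact (mul_le_mul_of_nonneg_right (step_mono hS k) (norm_nonneg _)).trans hx
    · have hN := hP (c (k + 1)) (q ^ (k + 1)) (hC (k + 1)) (c (k + 1 + j)) x
        ((dist_centres hC hS j (k + 1)).trans (by norm_num)) (hx.trans (by norm_num))
      have hn1 : 0 < q ^ k := pow_pos hq k
      have hmem : i * q ^ k ∈ Ico 1 (q ^ (k + 1)) := by
        rw [mem_Ico, pow_succ']
        exact ⟨Nat.mul_pos hi hn1, Nat.mul_lt_mul_of_pos_right hlt hn1⟩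
      have h1 := norm_le_of_sub (hN.orbit _ hmem)
      have h2 := (hS k).ret i
      have h3 := mul_le_mul_of_nonneg_left h1 (norm_nonneg (A (c k) (q ^ k)))
      nlinarith

theorem scale_zero (h0 : c 0 = 0) : ‖A (c 0) (q ^ 0)‖ * ‖Dp (c 0) (q ^ 0)‖ = 1 := by
  rw [h0, pow_zero, A_one]
  simp [Dp, crit_zero]

theorem scale_ge (hS : ∀ k, Pool.Agent.H47.MC.Step q (c k) (q ^ k) (c (k + 1))) (h0 : c 0 = 0)
    (k : ℕ) : (10 : ℝ) ^ k ≤ ‖A (c k) (q ^ k)‖ * ‖Dp (c k) (q ^ k)‖ := by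
  induction k with
  | zero => rw [scale_zero h0, pow_zero]
  | succ k ih =>
    rw [pow_succ]
    have := step_scale hS k
    linarith

/-- row S2 -/
theorem rowS2 (hq : 1 ≤ q) (hP : Pool.Agent.H47.MC.StatP)
    (hC : ∀ k, Pool.Agent.H47.MC.Centre (c k) (q ^ k))
    (hS : ∀ k, Pool.Agent.H47.MC.Step q (c k) (q ^ k) (c (k + 1))) (h0 : c 0 = 0) :
    ∃ c' : ℂ, Tendsto c atTop (𝓝 c') ∧
      (∀ k, ‖A (c k) (q ^ k)‖ * ‖Dp (c k) (q ^ k)‖ * ‖c' - c k‖ ≤ 2.5) ∧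
      ∀ k m, ‖A (c k) (q ^ k)‖ * ‖crit c' (m * q ^ k)‖ ≤ 2.5 := by
  have hcauchy : CauchySeq c := by
    refine cauchySeq_of_le_geometric (1 / 10) 2.2 (by norm_num) fun k => ?_
    have h1 := (hS k).dist
    have h2 := scale_ge hS h0 k
    have h3 : (0 : ℝ) < 10 ^ k := by positivity
    rw [dist_comm, dist_eq_norm, one_div, inv_pow, ← div_eq_mul_inv, le_div_iff₀ h3]
    have h4 := mul_le_mul_of_nonneg_right h2 (norm_nonneg (c (k + 1) - c k))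
    linarith
  obtain ⟨c', hc'⟩ := cauchySeq_tendsto_of_complete hcauchy
  have hc2 : ∀ k, Tendsto (fun j => c (k + j)) atTop (𝓝 c') := by
    intro k
    have := (tendsto_add_atTop_iff_nat (f := c) k).2 hc'
    simpa only [add_comm] using this
  refine ⟨c', hc', fun k => ?_, fun k m => ?_⟩
  · have ht : Tendsto (fun j => ‖A (c k) (q ^ k)‖ * ‖Dp (c k) (q ^ k)‖ * ‖c (k + j) - c k‖) atTop
        (𝓝 (‖A (c k) (q ^ k)‖ * ‖Dp (c k) (q ^ k)‖ * ‖c' - c k‖)) :=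
      Tendsto.const_mul _ (Tendsto.norm (Tendsto.sub_const (hc2 k) _))
    refine (le_of_tendsto ht (Eventually.of_forall fun j => dist_centres hC hS j k)).trans ?_
    norm_num
  · have ht : Tendsto (fun j => ‖A (c k) (q ^ k)‖ * ‖crit (c (k + j)) (m * q ^ k)‖) atTop
        (𝓝 (‖A (c k) (q ^ k)‖ * ‖crit c' (m * q ^ k)‖)) :=
      Tendsto.const_mul _ (Tendsto.norm (((continuous_crit (m * q ^ k)).tendsto c').comp (hc2 k)))
    exact le_of_tendsto ht (Eventually.of_forall fun j => ret_centres hq hP hC hS j k m)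

theorem centre_zero : Pool.Agent.H47.MC.Centre ((0 : ℝ) : ℂ) 1 := by
  refine ⟨le_rfl, ?_, ?_, ?_, ?_, ?_⟩
  · intro j hj
    rw [Finset.Ico_self] at hj
    exact absurd hj (Finset.notMem_empty _)
  · rw [crit_one, Complex.ofReal_zero]
  · simp [Dp, crit_zero]
  · simp [Pool.Agent.H47.MC.P]
  · simp [Pool.Agent.H47.MC.Q]

theorem exists_seq
    (hS1 : ∀ (c : ℝ) (n : ℕ), Pool.Agent.H47.MC.Centre (c : ℂ) n →
      ∃ c' : ℝ, Pool.Agent.H47.MC.Centre (c' : ℂ) (q * n) ∧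
        Pool.Agent.H47.MC.Step q (c : ℂ) n (c' : ℂ)) :
    ∃ s : ℕ → ℝ, s 0 = 0 ∧ (∀ k, Pool.Agent.H47.MC.Centre (s k : ℂ) (q ^ k)) ∧
      ∀ k, Pool.Agent.H47.MC.Step q (s k : ℂ) (q ^ k) (s (k + 1) : ℂ) := by
  have hstep : ∀ p : {p : ℕ × ℝ // Pool.Agent.H47.MC.Centre (p.2 : ℂ) p.1},
      ∃ p' : {p : ℕ × ℝ // Pool.Agent.H47.MC.Centre (p.2 : ℂ) p.1},
        p'.1.1 = q * p.1.1 ∧ Pool.Agent.H47.MC.Step q (p.1.2 : ℂ) p.1.1 (p'.1.2 : ℂ) := by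
    rintro ⟨⟨n, c⟩, hc⟩
    obtain ⟨c', h1, h2⟩ := hS1 c n hc
    exact ⟨⟨⟨q * n, c'⟩, h1⟩, rfl, h2⟩
  choose next hnext1 hnext2 using hstep
  let t : ℕ → {p : ℕ × ℝ // Pool.Agent.H47.MC.Centre (p.2 : ℂ) p.1} :=
    fun k => next^[k] ⟨⟨1, 0⟩, centre_zero⟩
  have ht : ∀ k, t (k + 1) = next (t k) := fun k =>
    Function.iterate_succ_apply' next k _
  have htn : ∀ k, (t k).1.1 = q ^ k := by
    intro k
    induction k with
    | zero => rw [pow_zero]; rfl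
    | succ k ih => rw [ht k, hnext1, ih, pow_succ']
  refine ⟨fun k => (t k).1.2, rfl, ?_, ?_⟩
  · intro k
    have h := (t k).2
    rw [htn k] at h
    exact h
  · intro k
    have h := hnext2 (t k)
    rw [← ht k, htn k] at h
    exact h

theorem scale_find {σ δ : ℕ → ℝ} {M : ℝ} (h0 : ∀ k, 0 < σ k) (h1 : σ 0 = 1)
    (h10 : ∀ k, (10 : ℝ) ^ k ≤ σ k) (hM : ∀ k, σ (k + 1) ≤ M * σ k)
    (hδ : ∀ k, σ k * δ k ≤ 2.5) {r : ℝ} (hr : 0 < r) (hr1 : r ≤ 1) :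
    ∃ k, 1 ≤ k ∧ δ k ≤ r ∧ r ≤ 2.5 * M / σ k := by
  have hM0 : 0 < M := by
    by_contra h
    have := hM 0
    nlinarith [h0 0, h0 1]
  have hex : ∃ k, 2.5 / σ k ≤ r := by
    obtain ⟨k, hk⟩ := pow_unbounded_of_one_lt (2.5 / r) (by norm_num : (1 : ℝ) < 10)
    refine ⟨k, ?_⟩
    rw [div_le_iff₀ (h0 k)]
    rw [div_lt_iff₀ hr] at hk
    nlinarith [h10 k]
  classical
  have hk := Nat.find_spec hex
  have hmin : ∀ j < Nat.find hex, ¬ 2.5 / σ j ≤ r := fun j hj => Nat.find_min hex hj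
  generalize Nat.find hex = k at hk hmin
  have hk1 : 1 ≤ k := by
    by_contra hlt
    have : k = 0 := by omega
    rw [this, h1] at hk
    norm_num at hk
    linarith
  refine ⟨k, hk1, ?_, ?_⟩
  · refine le_trans ?_ hk
    rw [le_div_iff₀ (h0 k)]
    have := hδ k
    linarith
  · obtain ⟨j, hj⟩ := Nat.exists_eq_add_of_le' hk1
    have h2 := hmin j (by omega)
    rw [not_le, lt_div_iff₀ (h0 j)] at h2
    rw [hj, le_div_iff₀ (h0 (j + 1))]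
    calc r * σ (j + 1) ≤ r * (M * σ j) := mul_le_mul_of_nonneg_left (hM j) hr.le
      _ = M * (r * σ j) := by ring
      _ ≤ M * 2.5 := mul_le_mul_of_nonneg_left h2.le hM0.le
      _ = 2.5 * M := by ring

/-- row V, from rows P, S1, T and U -/
theorem rowV (hq : 20 ≤ q) (hP : Pool.Agent.H47.MC.StatP)
    (hS1 : ∀ (c : ℝ) (n : ℕ), Pool.Agent.H47.MC.Centre (c : ℂ) n →
      ∃ c' : ℝ, Pool.Agent.H47.MC.Centre (c' : ℂ) (q * n) ∧ Pool.Agent.H47.MC.Step q (c : ℂ) n (c' : ℂ))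
    (hTU : ∀ (c : ℂ) (n : ℕ) (c' : ℂ), Pool.Agent.H47.MC.Centre c n → 2 ≤ n →
      ‖A c n‖ * ‖Dp c n‖ * ‖c' - c‖ ≤ 2.5 → (∀ m, ‖A c n‖ * ‖crit c' (m * n)‖ ≤ 2.5) →
      IsRenorm n c' ∧ Pool.Agent.H47.MC.Good c' n ∧ ‖A c' n‖ * ‖crit c' n‖ ≤ 4) :
    ∃ (c : ℝ) (a : ℕ → ℝ), (∀ k, 1 ≤ k → IsRenorm (q ^ k) (c : ℂ) ∧
        Pool.Agent.H47.MC.Good (c : ℂ) (q ^ k) ∧ ‖A (c : ℂ) (q ^ k)‖ * ‖crit (c : ℂ) (q ^ k)‖ ≤ 4) ∧
      (∀ k, Pool.Agent.H47.MC.Centre (a k : ℂ) (q ^ k)) ∧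
      (∀ k, ‖A (a k : ℂ) (q ^ k)‖ * ‖Dp (a k : ℂ) (q ^ k)‖ * ‖(c : ℂ) - a k‖ ≤ 2.5) ∧
      (∀ k, ‖A (a (k + 1) : ℂ) (q ^ (k + 1))‖ * ‖Dp (a (k + 1) : ℂ) (q ^ (k + 1))‖ ≤
        25 ^ q * (‖A (a k : ℂ) (q ^ k)‖ * ‖Dp (a k : ℂ) (q ^ k)‖)) ∧
      a 0 = 0 ∧
      ∀ r : ℝ, 0 < r → r ≤ 1 → ∃ k, 1 ≤ k ∧ ‖(c : ℂ) - a k‖ ≤ r ∧
        r ≤ 2.5 * 25 ^ q / (‖A (a k : ℂ) (q ^ k)‖ * ‖Dp (a k : ℂ) (q ^ k)‖) := by
  -- the sequence of centres
  obtain ⟨s, hs0, hsC, hsS⟩ := exists_seq hS1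
  set c : ℕ → ℂ := fun k => ((s k : ℝ) : ℂ) with hcdef
  have hC : ∀ k, Pool.Agent.H47.MC.Centre (c k) (q ^ k) := hsC
  have hS : ∀ k, Pool.Agent.H47.MC.Step q (c k) (q ^ k) (c (k + 1)) := hsS
  have hc0 : c 0 = 0 := by
    show ((s 0 : ℝ) : ℂ) = 0
    rw [hs0, Complex.ofReal_zero]
  obtain ⟨c', hlim, hd, hret⟩ := rowS2 (by omega) hP hC hS hc0
  have him : c'.im = 0 := by
    have h1 : Tendsto (fun k => (c k).im) atTop (𝓝 c'.im) :=
      (Complex.continuous_im.tendsto c').comp hlim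
    have h2 : (fun k => (c k).im) = fun _ => (0 : ℝ) := by
      funext k
      exact Complex.ofReal_im _
    rw [h2] at h1
    exact tendsto_nhds_unique h1 tendsto_const_nhds
  have hre : ((c'.re : ℝ) : ℂ) = c' := Complex.ext (by simp) (by simp [him])
  have hge := scale_ge hS hc0
  have hup : ∀ k, ‖A (c (k + 1)) (q ^ (k + 1))‖ * ‖Dp (c (k + 1)) (q ^ (k + 1))‖ ≤
      25 ^ q * (‖A (c k) (q ^ k)‖ * ‖Dp (c k) (q ^ k)‖) := fun k => step_upper (c := c) hS k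
  have hlast : ∀ r : ℝ, 0 < r → r ≤ 1 → ∃ k, 1 ≤ k ∧ ‖c' - c k‖ ≤ r ∧
      r ≤ 2.5 * 25 ^ q / (‖A (c k) (q ^ k)‖ * ‖Dp (c k) (q ^ k)‖) := by
    intro r hr hr1
    exact scale_find (σ := fun k => ‖A (c k) (q ^ k)‖ * ‖Dp (c k) (q ^ k)‖)
      (δ := fun k => ‖c' - c k‖) (M := 25 ^ q)
      (fun k => scale_pos hC k) (scale_zero hc0) hge hup hd hr hr1
  refine ⟨c'.re, s, ?_, hC, ?_, hup, hs0, ?_⟩
  · intro k hk
    rw [hre]
    have h2 : 2 ≤ q ^ k := by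
      calc 2 ≤ q := by omega
        _ = q ^ 1 := (pow_one q).symm
        _ ≤ q ^ k := Nat.pow_le_pow_right (by omega) hk
    exact hTU (c k) (q ^ k) c' (hC k) h2 (hd k) (hret k)
  · intro k
    rw [hre]
    exact hd k
  · rw [hre]
    exact hlast

end Pool.Agent.H48.MC
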