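import Pool.Agent.H47.MC.Dim

set_option linter.style.longLine false

/-! Uniformly porous bounded sets in the plane have dimension less than two. -/

namespace Pool.Agent.H48.MC.DimP

open Finset Metric MeasureTheory Filter Topology
open scoped ENNReal NNReal

/-- the index of the cell of level `k` containing `x` -/
noncomputable def idx (N k : ℕ) (x : ℂ) : ℤ × ℤ := (⌊x.re * (N : ℝ) ^ k⌋, ⌊x.im * (N : ℝ) ^ k⌋)

/-- the children of a cell -/
noncomputable def box (N : ℕ) (p : ℤ × ℤ) : Finset (ℤ × ℤ) :=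
  Finset.Ico (N * p.1) (N * p.1 + N) ×ˢ Finset.Ico (N * p.2) (N * p.2 + N)

theorem card_box (N : ℕ) (p : ℤ × ℤ) : (box N p).card = N ^ 2 := by
  unfold box
  rw [card_product, Int.card_Ico, Int.card_Ico, add_sub_cancel_left, add_sub_cancel_left,
    Int.toNat_natCast, sq]

theorem floor_child {N k : ℕ} (hN : 1 ≤ N) (u : ℝ) :
    ⌊u * (N : ℝ) ^ (k + 1)⌋ ∈ Finset.Ico (N * ⌊u * (N : ℝ) ^ k⌋) (N * ⌊u * (N : ℝ) ^ k⌋ + N) := by
  have hN0 : (0 : ℝ) < N := by exact_mod_cast hN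
  have h1 := Int.floor_le (u * (N : ℝ) ^ k)
  have h2 := Int.lt_floor_add_one (u * (N : ℝ) ^ k)
  have e : u * (N : ℝ) ^ (k + 1) = N * (u * (N : ℝ) ^ k) := by ring
  rw [Finset.mem_Ico]
  constructor
  · rw [Int.le_floor, e]
    push_cast
    exact mul_le_mul_of_nonneg_left h1 hN0.le
  · rw [Int.floor_lt, e]
    push_cast
    nlinarith

theorem idx_child {N k : ℕ} (hN : 1 ≤ N) (x : ℂ) : idx N (k + 1) x ∈ box N (idx N k x) := by
  unfold box idx
  rw [mem_product]
  exact ⟨floor_child hN x.re, floor_child hN x.im⟩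

/-- the children of different cells are different -/
theorem box_inj {N : ℕ} (hN : 1 ≤ N) {p p' q : ℤ × ℤ} (h : q ∈ box N p) (h' : q ∈ box N p') : p = p' := by
  unfold box at h h'
  rw [mem_product, Finset.mem_Ico, Finset.mem_Ico] at h h'
  have hN0 : (0 : ℤ) < N := by exact_mod_cast hN
  have key : ∀ a b u : ℤ, N * a ≤ u → u < N * a + N → N * b ≤ u → u < N * b + N → a = b := by
    intro a b u h1 h2 h3 h4
    rcases lt_trichotomy a b with h | h | h
    · nlinarith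
    · exact h
    · nlinarith
  exact Prod.ext (key _ _ _ h.1.1 h.1.2 h'.1.1 h'.1.2) (key _ _ _ h.2.1 h.2.2 h'.2.1 h'.2.2)

/-- points of the same cell are close -/
theorem dist_of_idx {N k : ℕ} (hN : 1 ≤ N) {x y : ℂ} (h : idx N k x = idx N k y) :
    dist x y ≤ 2 / (N : ℝ) ^ k := by
  have hNk : (0 : ℝ) < (N : ℝ) ^ k := by
    have : (0 : ℝ) < N := by exact_mod_cast hN
    positivity
  unfold idx at h
  rw [Prod.mk.injEq] at h
  have key : ∀ u v : ℝ, ⌊u * (N : ℝ) ^ k⌋ = ⌊v * (N : ℝ) ^ k⌋ → |u - v| ≤ 1 / (N : ℝ) ^ k := by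
    intro u v huv
    have := Int.abs_sub_lt_one_of_floor_eq_floor huv
    rw [← sub_mul, abs_mul, abs_of_pos hNk] at this
    rw [le_div_iff₀ hNk]
    exact this.le
  have h1 := key _ _ h.1
  have h2 := key _ _ h.2
  rw [Complex.dist_eq]
  refine (Complex.norm_le_abs_re_add_abs_im _).trans ?_
  rw [Complex.sub_re, Complex.sub_im]
  calc |x.re - y.re| + |x.im - y.im| ≤ 1 / (N : ℝ) ^ k + 1 / (N : ℝ) ^ k := add_le_add h1 h2
    _ = 2 / (N : ℝ) ^ k := by ring

variable {E : Set ℂ} {η : ℝ} {N : ℕ}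

/-- each cell has a child which does not meet the set -/
theorem exists_missed (hη : 0 < η) (hN8 : 8 ≤ N) (hNη : 8 ≤ η * N)
    (hE : ∀ x ∈ E, ∀ r ∈ Set.Ioc (0 : ℝ) 1, ∃ y : ℂ, closedBall y (η * r) ⊆ closedBall x r ∧
      Disjoint (closedBall y (η * r)) E) (k : ℕ) (p : ℤ × ℤ) :
    ∃ q ∈ box N p, q ∉ idx N (k + 1) '' E := by
  have hN1 : 1 ≤ N := by omega
  have hN0 : (0 : ℝ) < N := by exact_mod_cast hN1
  have hNk : (0 : ℝ) < (N : ℝ) ^ k := by positivity
  have hN8' : (8 : ℝ) ≤ N := by exact_mod_cast hN8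
  obtain ⟨h, hh⟩ : ∃ h : ℕ, h = N / 2 := ⟨_, rfl⟩
  have hh1 : 2 * h ≤ N := by omega
  have hh2 : N ≤ 2 * h + 1 := by omega
  have hh1' : 2 * (h : ℝ) ≤ N := by exact_mod_cast hh1
  have hh2' : (N : ℝ) ≤ 2 * h + 1 := by exact_mod_cast hh2
  by_cases hc : (N * p.1 + h, N * p.2 + h) ∈ idx N (k + 1) '' E
  · obtain ⟨x, hx, hxi⟩ := hc
    unfold idx at hxi
    rw [Prod.mk.injEq] at hxi
    have hr0 : (0 : ℝ) < 1 / (4 * (N : ℝ) ^ k) := by positivity
    have hr1 : 1 / (4 * (N : ℝ) ^ k) ≤ 1 := by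
      rw [div_le_one (by positivity)]
      have : (1 : ℝ) ≤ (N : ℝ) ^ k := one_le_pow₀ (by linarith)
      linarith
    obtain ⟨y, hy1, hy2⟩ := hE x hx _ ⟨hr0, hr1⟩
    have hyx : dist y x ≤ 1 / (4 * (N : ℝ) ^ k) := hy1 (mem_closedBall_self (by positivity))
    rw [Complex.dist_eq] at hyx
    have key : ∀ (u v : ℝ) (a : ℤ), |v - u| ≤ 1 / (4 * (N : ℝ) ^ k) →
        ⌊u * (N : ℝ) ^ (k + 1)⌋ = N * a + h →
        ⌊v * (N : ℝ) ^ (k + 1)⌋ ∈ Finset.Ico (N * a) (N * a + N) := by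
      intro u v a huv hu
      have h1 := Int.floor_le (u * (N : ℝ) ^ (k + 1))
      have h2 := Int.lt_floor_add_one (u * (N : ℝ) ^ (k + 1))
      rw [hu] at h1 h2
      push_cast at h1 h2
      have h3 : |v * (N : ℝ) ^ (k + 1) - u * (N : ℝ) ^ (k + 1)| ≤ N / 4 := by
        rw [← sub_mul, abs_mul, abs_of_pos (show (0 : ℝ) < (N : ℝ) ^ (k + 1) by positivity)]
        calc |v - u| * (N : ℝ) ^ (k + 1) ≤ 1 / (4 * (N : ℝ) ^ k) * (N : ℝ) ^ (k + 1) := by gcongr
          _ = N / 4 := by rw [pow_succ]; field_simp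
      rw [abs_le] at h3
      rw [Finset.mem_Ico]
      constructor
      · rw [Int.le_floor]
        push_cast
        linarith [h3.1]
      · rw [Int.floor_lt]
        push_cast
        linarith [h3.2]
    refine ⟨idx N (k + 1) y, ?_, ?_⟩
    · unfold box idx
      rw [mem_product]
      refine ⟨key x.re y.re p.1 ?_ hxi.1, key x.im y.im p.2 ?_ hxi.2⟩
      · rw [← Complex.sub_re]
        exact (Complex.abs_re_le_norm _).trans hyx
      · rw [← Complex.sub_im]
        exact (Complex.abs_im_le_norm _).trans hyx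
    · rintro ⟨z, hz, hzi⟩
      refine Set.disjoint_left.1 hy2 ?_ hz
      rw [mem_closedBall]
      refine (dist_of_idx hN1 hzi).trans ?_
      rw [pow_succ, div_le_iff₀ (by positivity)]
      calc (2 : ℝ) = 8 / 4 := by norm_num
        _ ≤ η * N / 4 := by linarith
        _ = η * (1 / (4 * (N : ℝ) ^ k)) * ((N : ℝ) ^ k * N) := by field_simp
  · refine ⟨_, ?_, hc⟩
    unfold box
    rw [mem_product, Finset.mem_Ico, Finset.mem_Ico]
    refine ⟨⟨by simp, ?_⟩, ⟨by simp, ?_⟩⟩ <;> simp only [add_lt_add_iff_left] <;> omega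

theorem finite_idx (hN : 1 ≤ N) (hE : Bornology.IsBounded E) (k : ℕ) : (idx N k '' E).Finite := by
  induction k with
  | zero =>
    obtain ⟨R, hR⟩ := hE.subset_closedBall (0 : ℂ)
    refine (Set.Finite.prod (Set.finite_Icc ⌊-R⌋ ⌊R⌋) (Set.finite_Icc ⌊-R⌋ ⌊R⌋)).subset ?_
    rintro _ ⟨x, hx, rfl⟩
    have h1 := hR hx
    rw [mem_closedBall, dist_zero_right] at h1
    have h2 := abs_le.1 ((Complex.abs_re_le_norm x).trans h1)
    have h3 := abs_le.1 ((Complex.abs_im_le_norm x).trans h1)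
    unfold idx
    rw [pow_zero, mul_one, mul_one]
    exact ⟨⟨Int.floor_le_floor h2.1, Int.floor_le_floor h2.2⟩,
      ⟨Int.floor_le_floor h3.1, Int.floor_le_floor h3.2⟩⟩
  | succ k ih =>
    refine (Set.Finite.biUnion ih fun p _ => (box N p).finite_toSet).subset ?_
    rintro _ ⟨x, hx, rfl⟩
    exact Set.mem_biUnion ⟨x, hx, rfl⟩ (idx_child hN x)

open Classical in
theorem card_idx (hη : 0 < η) (hN8 : 8 ≤ N) (hNη : 8 ≤ η * N) (hB : Bornology.IsBounded E)
    (hE : ∀ x ∈ E, ∀ r ∈ Set.Ioc (0 : ℝ) 1, ∃ y : ℂ, closedBall y (η * r) ⊆ closedBall x r ∧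
      Disjoint (closedBall y (η * r)) E) (k : ℕ) :
    (finite_idx (show 1 ≤ N by omega) hB k).toFinset.card ≤
      (N ^ 2 - 1) ^ k * (finite_idx (show 1 ≤ N by omega) hB 0).toFinset.card := by
  induction k with
  | zero => simp
  | succ k ih =>
    have hN1 : 1 ≤ N := by omega
    have h1 : (finite_idx hN1 hB (k + 1)).toFinset ⊆
        (finite_idx hN1 hB k).toFinset.biUnion
          fun p => (box N p).filter (· ∈ idx N (k + 1) '' E) := by
      intro q hq
      rw [Set.Finite.mem_toFinset] at hq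
      obtain ⟨x, hx, rfl⟩ := hq
      rw [mem_biUnion]
      exact ⟨idx N k x, (Set.Finite.mem_toFinset _).2 ⟨x, hx, rfl⟩,
        mem_filter.2 ⟨idx_child hN1 x, ⟨x, hx, rfl⟩⟩⟩
    have h2 : ∀ p ∈ (finite_idx hN1 hB k).toFinset,
        ((box N p).filter (· ∈ idx N (k + 1) '' E)).card ≤ N ^ 2 - 1 := by
      intro p _
      obtain ⟨q, hq1, hq2⟩ := exists_missed hη hN8 hNη hE k p
      rw [← card_box N p, ← card_erase_of_mem hq1]
      refine card_le_card fun q' hq' => ?_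
      rw [mem_filter] at hq'
      exact mem_erase.2 ⟨fun h => hq2 (h ▸ hq'.2), hq'.1⟩
    calc (finite_idx hN1 hB (k + 1)).toFinset.card
        ≤ _ := card_le_card h1
      _ ≤ (finite_idx hN1 hB k).toFinset.card * (N ^ 2 - 1) := card_biUnion_le_card_mul _ _ _ h2
      _ ≤ ((N ^ 2 - 1) ^ k * (finite_idx hN1 hB 0).toFinset.card) * (N ^ 2 - 1) := by gcongr
      _ = _ := by ring

theorem measure_le (hη : 0 < η) (hN8 : 8 ≤ N) (hNη : 8 ≤ η * N) (hB : Bornology.IsBounded E)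
    (hE : ∀ x ∈ E, ∀ r ∈ Set.Ioc (0 : ℝ) 1, ∃ y : ℂ, closedBall y (η * r) ⊆ closedBall x r ∧
      Disjoint (closedBall y (η * r)) E) {d : ℝ} (hd : 0 ≤ d) (hNd : (N : ℝ) ^ d = (N : ℝ) ^ 2 - 1) :
    μH[d] E ≤ ENNReal.ofReal (2 ^ d * (finite_idx (show 1 ≤ N by omega) hB 0).toFinset.card) := by
  have hN1 : 1 ≤ N := by omega
  have hN0 : (0 : ℝ) < N := by exact_mod_cast hN1
  have hN8' : (8 : ℝ) ≤ N := by exact_mod_cast hN8
  set m := (finite_idx hN1 hB 0).toFinset.card with hm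
  have hr : Tendsto (fun k : ℕ => ENNReal.ofReal (2 / (N : ℝ) ^ k)) atTop (𝓝 0) := by
    rw [← ENNReal.ofReal_zero]
    refine ENNReal.tendsto_ofReal ?_
    have h1 : Tendsto (fun k : ℕ => 2 * ((N : ℝ)⁻¹) ^ k) atTop (𝓝 (2 * 0)) :=
      (tendsto_pow_atTop_nhds_zero_of_lt_one (by positivity) (inv_lt_one_of_one_lt₀ (by linarith))).const_mul 2
    rw [mul_zero] at h1
    refine h1.congr fun k => ?_
    rw [inv_pow, div_eq_mul_inv]
  have hdiam : ∀ k (p : ℤ × ℤ), Metric.ediam {x : ℂ | idx N k x = p} ≤ ENNReal.ofReal (2 / (N : ℝ) ^ k) := by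
    intro k p
    refine Metric.ediam_le fun x hx y hy => ?_
    rw [edist_dist]
    exact ENNReal.ofReal_le_ofReal (dist_of_idx hN1 (hx.trans hy.symm))
  refine (Measure.hausdorffMeasure_le_liminf_sum (ι := fun k => (finite_idx hN1 hB k).toFinset) d E
    (fun k : ℕ => ENNReal.ofReal (2 / (N : ℝ) ^ k)) hr (fun k p => {x : ℂ | idx N k x = p.1})
    (Eventually.of_forall fun k p => hdiam k p.1) (Eventually.of_forall fun k x hx => ?_)).trans ?_
  · rw [Set.mem_iUnion]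
    exact ⟨⟨idx N k x, (Set.Finite.mem_toFinset _).2 ⟨x, hx, rfl⟩⟩, rfl⟩
  · refine liminf_le_of_le (by isBoundedDefault) fun b hb => ?_
    obtain ⟨k, hk⟩ := hb.exists
    refine hk.trans ?_
    calc ∑ p : (finite_idx hN1 hB k).toFinset, Metric.ediam {x : ℂ | idx N k x = p.1} ^ d
        ≤ ∑ _p : (finite_idx hN1 hB k).toFinset, ENNReal.ofReal (2 / (N : ℝ) ^ k) ^ d :=
          Finset.sum_le_sum fun p _ => ENNReal.rpow_le_rpow (hdiam k p.1) hd
      _ = ENNReal.ofReal ((finite_idx hN1 hB k).toFinset.card * (2 / (N : ℝ) ^ k) ^ d) := by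
          rw [Finset.sum_const, Finset.card_univ, Fintype.card_coe, nsmul_eq_mul,
            ENNReal.ofReal_rpow_of_pos (by positivity), ENNReal.ofReal_mul (by positivity),
            ENNReal.ofReal_natCast]
      _ ≤ ENNReal.ofReal (2 ^ d * m) := by
          refine ENNReal.ofReal_le_ofReal ?_
          have h1 : ((finite_idx hN1 hB k).toFinset.card : ℝ) ≤ ((N : ℝ) ^ 2 - 1) ^ k * m := by
            have := card_idx hη hN8 hNη hB hE k
            have h2 : (((N ^ 2 - 1 : ℕ)) : ℝ) = (N : ℝ) ^ 2 - 1 := by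
              rw [Nat.cast_sub (Nat.one_le_pow _ _ hN1)]
              push_cast
              ring
            rw [← h2]
            exact_mod_cast this
          have h3 : (2 / (N : ℝ) ^ k) ^ d = 2 ^ d / ((N : ℝ) ^ 2 - 1) ^ k := by
            rw [Real.div_rpow (by norm_num) (by positivity), ← hNd, ← Real.rpow_natCast,
              ← Real.rpow_natCast, ← Real.rpow_mul hN0.le, ← Real.rpow_mul hN0.le, mul_comm d]
          have h4 : (0 : ℝ) < (N : ℝ) ^ 2 - 1 := by nlinarith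
          rw [h3]
          calc ((finite_idx hN1 hB k).toFinset.card : ℝ) * (2 ^ d / ((N : ℝ) ^ 2 - 1) ^ k)
              ≤ ((N : ℝ) ^ 2 - 1) ^ k * m * (2 ^ d / ((N : ℝ) ^ 2 - 1) ^ k) := by gcongr
            _ = (2 : ℝ) ^ d * (m : ℝ) := by
              have h5 : (0 : ℝ) < ((N : ℝ) ^ 2 - 1) ^ k := pow_pos h4 k
              field_simp

/-- row DIM -/
theorem rowDim : Pool.Agent.H47.MC.StatDim := by
  intro η hη
  obtain ⟨N, hN⟩ := exists_nat_ge (max 8 (8 / η))
  have hN8 : 8 ≤ N := by exact_mod_cast (le_max_left _ _).trans hN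
  have hNη : 8 ≤ η * N := by
    have := (le_max_right _ _).trans hN
    rw [div_le_iff₀ hη] at this
    linarith
  have hN8' : (8 : ℝ) ≤ N := by exact_mod_cast hN8
  have hN0 : (0 : ℝ) < N := by linarith
  have hL : 0 < Real.log N := Real.log_pos (by linarith)
  set d := Real.log ((N : ℝ) ^ 2 - 1) / Real.log N with hd
  have h4 : (1 : ℝ) < (N : ℝ) ^ 2 - 1 := by nlinarith
  have hd0 : 0 < d := div_pos (Real.log_pos h4) hL
  have hd2 : d < 2 := by
    rw [hd, div_lt_iff₀ hL]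
    calc Real.log ((N : ℝ) ^ 2 - 1) < Real.log ((N : ℝ) ^ 2) :=
          Real.log_lt_log (by linarith) (by linarith)
      _ = 2 * Real.log N := by rw [Real.log_pow]; norm_num
  have hNd : (N : ℝ) ^ d = (N : ℝ) ^ 2 - 1 := by
    rw [Real.rpow_def_of_pos hN0, hd, mul_div_cancel₀ _ hL.ne', Real.exp_log (by linarith)]
  refine ⟨2 - d, by linarith, fun E hB hE => ?_⟩
  have h := measure_le hη hN8 hNη hB hE hd0.le hNd
  rw [sub_sub_cancel]
  have h5 : dimH E ≤ ((d.toNNReal : ℝ≥0) : ℝ≥0∞) := by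
    refine dimH_le_of_hausdorffMeasure_ne_top ?_
    rw [Real.coe_toNNReal _ hd0.le]
    exact (h.trans_lt ENNReal.ofReal_lt_top).ne
  exact h5

end Pool.Agent.H48.MC.DimP
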