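import Pool.Agent.H48.MC.RowV
import Pool.Agent.H98.MC.RowTU
import Pool.Agent.H47.MC.RowP
import Pool.Agent.H47.MC.RowS1
import Pool.Agent.H10.MC.RowR

set_option linter.style.longLine false

/-! MB2, second version: the sequence of nested centres of constant ratio, assembled. -/

namespace Pool.Agent.H48.MC

open Finset Filter Topology
open Pool.Agent.H51.IR Pool.Agent.H98.MB

variable {q : ℕ}

/-- for each `q ≥ 20` a real parameter which is infinitely renormalizable, with the periods `q ^ k`,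
and which has centres with small distortion at all scales -/
theorem seq (hq : 20 ≤ q) :
    ∃ (c : ℝ) (a : ℕ → ℝ), (∀ k, 1 ≤ k → IsRenorm (q ^ k) (c : ℂ) ∧
        Pool.Agent.H47.MC.Good (c : ℂ) (q ^ k) ∧ ‖A (c : ℂ) (q ^ k)‖ * ‖crit (c : ℂ) (q ^ k)‖ ≤ 4) ∧
      (∀ k, Pool.Agent.H47.MC.Centre (a k : ℂ) (q ^ k)) ∧
      (∀ k, ‖A (a k : ℂ) (q ^ k)‖ * ‖Dp (a k : ℂ) (q ^ k)‖ * ‖(c : ℂ) - a k‖ ≤ 2.5) ∧
      (∀ k, ‖A (a (k + 1) : ℂ) (q ^ (k + 1))‖ * ‖Dp (a (k + 1) : ℂ) (q ^ (k + 1))‖ ≤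
        25 ^ q * (‖A (a k : ℂ) (q ^ k)‖ * ‖Dp (a k : ℂ) (q ^ k)‖)) ∧
      a 0 = 0 ∧
      ∀ r : ℝ, 0 < r → r ≤ 1 → ∃ k, 1 ≤ k ∧ ‖(c : ℂ) - a k‖ ≤ r ∧
        r ≤ 2.5 * 25 ^ q / (‖A (a k : ℂ) (q ^ k)‖ * ‖Dp (a k : ℂ) (q ^ k)‖) := by
  refine rowV hq Pool.Agent.H47.MC.rowP
    (fun c n hc => Pool.Agent.H47.MC.rowS1 Pool.Agent.H10.MC.rowR' hq hc) ?_
  intro c n c' hc hn hd hret
  have hA : 0 < ‖A c n‖ := norm_pos_iff.2 (Pool.Agent.H98.MC.centre_A_ne hc le_rfl)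
  have hnear : ∀ x, ‖A c n‖ * ‖x‖ ≤ 5 → Pool.Agent.H47.MC.Near c n c' x := fun x hx =>
    Pool.Agent.H47.MC.rowP c n hc c' x (hd.trans (by norm_num)) hx
  refine ⟨Pool.Agent.H98.MC.isRenorm_of_near hc hn hd hret
    (fun x hx => hnear x (hx.trans (by norm_num))), ?_⟩
  have h1 := hret 1
  rw [one_mul] at h1
  exact Pool.Agent.H98.MC.good_of_centre hc hn (hnear 0 (by simp)) h1

end Pool.Agent.H48.MC
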