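import Pool.Agent.H47.MC.Defs
import Pool.Agent.H48.MB.RowS2
import Pool.Agent.H48.MC.RowV
import Pool.Agent.H98.MC.RowTU
import Pool.Agent.H47.MC.RowP
import Pool.Agent.H47.MC.RowS1
import Pool.Agent.H10.MC.RowR

set_option linter.style.longLine false

/-! MB2, second version: the limit of nested centres, for each sequence of ratios at least 20. -/

namespace Pool.Agent.H48.MC.G

open Finset Filter Topology
open Pool.Agent.H51.IR Pool.Agent.H98.MB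
open Pool.Agent.H48.MB (continuous_crit crit_mul_eq_zero)
open Pool.Agent.H47.MB (crit_add norm_le_of_sub)

variable {q : ℕ → ℕ} {c : ℕ → ℂ}

/-- the periods -/
def nn (q : ℕ → ℕ) (k : ℕ) : ℕ := ∏ i ∈ range k, q i

theorem nn_zero (q : ℕ → ℕ) : nn q 0 = 1 := rfl

theorem nn_succ (q : ℕ → ℕ) (k : ℕ) : nn q (k + 1) = q k * nn q k := by
  unfold nn
  rw [prod_range_succ, mul_comm]

theorem nn_pos (hq : ∀ k, 1 ≤ q k) (k : ℕ) : 0 < nn q k :=
  prod_pos fun i _ => hq i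

theorem scale_pos (hC : ∀ k, Pool.Agent.H47.MC.Centre (c k) (nn q k)) (k : ℕ) :
    0 < ‖A (c k) (nn q k)‖ * ‖Dp (c k) (nn q k)‖ :=
  mul_pos (norm_pos_iff.2 (Centre.A_ne (hC k))) (norm_pos_iff.2 (hC k).dp)

theorem step_scale (hS : ∀ k, Pool.Agent.H47.MC.Step (q k) (c k) (nn q k) (c (k + 1))) (k : ℕ) :
    10 * (‖A (c k) (nn q k)‖ * ‖Dp (c k) (nn q k)‖) ≤
      ‖A (c (k + 1)) (nn q (k + 1))‖ * ‖Dp (c (k + 1)) (nn q (k + 1))‖ := by
  have h := (hS k).scale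
  rwa [← nn_succ] at h

theorem step_upper (hS : ∀ k, Pool.Agent.H47.MC.Step (q k) (c k) (nn q k) (c (k + 1))) (k : ℕ) :
    ‖A (c (k + 1)) (nn q (k + 1))‖ * ‖Dp (c (k + 1)) (nn q (k + 1))‖ ≤
      25 ^ (q k) * (‖A (c k) (nn q k)‖ * ‖Dp (c k) (nn q k)‖) := by
  have h := (hS k).upper
  rwa [← nn_succ] at h

theorem step_mono (hS : ∀ k, Pool.Agent.H47.MC.Step (q k) (c k) (nn q k) (c (k + 1))) (k : ℕ) :
    ‖A (c k) (nn q k)‖ ≤ ‖A (c (k + 1)) (nn q (k + 1))‖ := by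
  have h := (hS k).mono
  rwa [← nn_succ] at h

theorem dist_centres (hC : ∀ k, Pool.Agent.H47.MC.Centre (c k) (nn q k))
    (hS : ∀ k, Pool.Agent.H47.MC.Step (q k) (c k) (nn q k) (c (k + 1))) (j : ℕ) :
    ∀ k, ‖A (c k) (nn q k)‖ * ‖Dp (c k) (nn q k)‖ * ‖c (k + j) - c k‖ ≤ 2.45 := by
  induction j with
  | zero => intro k; rw [add_zero, sub_self, norm_zero, mul_zero]; norm_num
  | succ j ih =>
    intro k
    have h1 := ih (k + 1)
    have h2 := (hS k).dist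
    have h3 := step_scale hS k
    have h0 := scale_pos hC k
    have e : k + (j + 1) = k + 1 + j := by omega
    rw [e]
    have h4 : ‖c (k + 1 + j) - c k‖ ≤ ‖c (k + 1 + j) - c (k + 1)‖ + ‖c (k + 1) - c k‖ := by
      have := norm_add_le (c (k + 1 + j) - c (k + 1)) (c (k + 1) - c k)
      rwa [sub_add_sub_cancel] at this
    have h5 := mul_le_mul_of_nonneg_right h3 (norm_nonneg (c (k + 1 + j) - c (k + 1)))
    have h6 := mul_le_mul_of_nonneg_left h4 h0.le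
    nlinarith

theorem ret_centres (hq : ∀ k, 1 ≤ q k) (hP : Pool.Agent.H47.MC.StatP)
    (hC : ∀ k, Pool.Agent.H47.MC.Centre (c k) (nn q k))
    (hS : ∀ k, Pool.Agent.H47.MC.Step (q k) (c k) (nn q k) (c (k + 1))) (j : ℕ) :
    ∀ k m, ‖A (c k) (nn q k)‖ * ‖crit (c (k + j)) (m * nn q k)‖ ≤ 2.5 := by
  induction j with
  | zero =>
    intro k m
    rw [add_zero, crit_mul_eq_zero (hC k).zero, norm_zero, mul_zero]
    norm_num
  | succ j ih =>
    intro k m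
    have e : k + (j + 1) = k + 1 + j := by omega
    rw [e]
    have hdm : m = (m / q k) * q k + m % q k := by
      rw [mul_comm]; exact (Nat.div_add_mod m (q k)).symm
    have hlt := Nat.mod_lt m (hq k)
    generalize m / q k = b at hdm
    generalize m % q k = i at hdm hlt
    have hx := ih (k + 1) b
    have hmn : m * nn q k = b * nn q (k + 1) + i * nn q k := by rw [hdm, nn_succ]; ring
    rw [hmn, crit_add]
    set x := crit (c (k + 1 + j)) (b * nn q (k + 1)) with hxdef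
    rcases Nat.eq_zero_or_pos i with hi | hi
    · rw [hi, zero_mul]
      exact (mul_le_mul_of_nonneg_right (step_mono hS k) (norm_nonneg _)).trans hx
    · have hN := hP (c (k + 1)) (nn q (k + 1)) (hC (k + 1)) (c (k + 1 + j)) x
        ((dist_centres hC hS j (k + 1)).trans (by norm_num)) (hx.trans (by norm_num))
      have hn1 : 0 < nn q k := nn_pos hq k
      have hmem : i * nn q k ∈ Ico 1 (nn q (k + 1)) := by
        rw [mem_Ico, nn_succ]
        exact ⟨Nat.mul_pos hi hn1, Nat.mul_lt_mul_of_pos_right hlt hn1⟩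
      have h1 := norm_le_of_sub (hN.orbit _ hmem)
      have h2 := (hS k).ret i
      have h3 := mul_le_mul_of_nonneg_left h1 (norm_nonneg (A (c k) (nn q k)))
      nlinarith

theorem scale_zero (h0 : c 0 = 0) : ‖A (c 0) (nn q 0)‖ * ‖Dp (c 0) (nn q 0)‖ = 1 := by
  rw [h0, nn_zero, A_one]
  simp [Dp, crit_zero]

theorem scale_ge (hS : ∀ k, Pool.Agent.H47.MC.Step (q k) (c k) (nn q k) (c (k + 1))) (h0 : c 0 = 0)
    (k : ℕ) : (10 : ℝ) ^ k ≤ ‖A (c k) (nn q k)‖ * ‖Dp (c k) (nn q k)‖ := by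
  induction k with
  | zero => rw [scale_zero h0, pow_zero]
  | succ k ih =>
    rw [pow_succ]
    have := step_scale hS k
    linarith

/-- row S2 -/
theorem rowS2 (hq : ∀ k, 1 ≤ q k) (hP : Pool.Agent.H47.MC.StatP)
    (hC : ∀ k, Pool.Agent.H47.MC.Centre (c k) (nn q k))
    (hS : ∀ k, Pool.Agent.H47.MC.Step (q k) (c k) (nn q k) (c (k + 1))) (h0 : c 0 = 0) :
    ∃ c' : ℂ, Tendsto c atTop (𝓝 c') ∧
      (∀ k, ‖A (c k) (nn q k)‖ * ‖Dp (c k) (nn q k)‖ * ‖c' - c k‖ ≤ 2.5) ∧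
      ∀ k m, ‖A (c k) (nn q k)‖ * ‖crit c' (m * nn q k)‖ ≤ 2.5 := by
  have hcauchy : CauchySeq c := by
    refine cauchySeq_of_le_geometric (1 / 10) 2.2 (by norm_num) fun k => ?_
    have h1 := (hS k).dist
    have h2 := scale_ge hS h0 k
    have h3 : (0 : ℝ) < 10 ^ k := by positivity
    rw [dist_comm, dist_eq_norm, one_div, inv_pow, ← div_eq_mul_inv, le_div_iff₀ h3]
    have h4 := mul_le_mul_of_nonneg_right h2 (norm_nonneg (c (k + 1) - c k))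
    linarith
  obtain ⟨c', hc'⟩ := cauchySeq_tendsto_of_complete hcauchy
  have hc2 : ∀ k, Tendsto (fun j => c (k + j)) atTop (𝓝 c') := by
    intro k
    have := (tendsto_add_atTop_iff_nat (f := c) k).2 hc'
    simpa only [add_comm] using this
  refine ⟨c', hc', fun k => ?_, fun k m => ?_⟩
  · have ht : Tendsto (fun j => ‖A (c k) (nn q k)‖ * ‖Dp (c k) (nn q k)‖ * ‖c (k + j) - c k‖) atTop
        (𝓝 (‖A (c k) (nn q k)‖ * ‖Dp (c k) (nn q k)‖ * ‖c' - c k‖)) :=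
      Tendsto.const_mul _ (Tendsto.norm (Tendsto.sub_const (hc2 k) _))
    refine (le_of_tendsto ht (Eventually.of_forall fun j => dist_centres hC hS j k)).trans ?_
    norm_num
  · have ht : Tendsto (fun j => ‖A (c k) (nn q k)‖ * ‖crit (c (k + j)) (m * nn q k)‖) atTop
        (𝓝 (‖A (c k) (nn q k)‖ * ‖crit c' (m * nn q k)‖)) :=
      Tendsto.const_mul _ (Tendsto.norm (((continuous_crit (m * nn q k)).tendsto c').comp (hc2 k)))
    exact le_of_tendsto ht (Eventually.of_forall fun j => ret_centres hq hP hC hS j k m)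

theorem exists_seq (q : ℕ → ℕ)
    (hS1 : ∀ (j : ℕ) (c : ℝ) (n : ℕ), Pool.Agent.H47.MC.Centre (c : ℂ) n →
      ∃ c' : ℝ, Pool.Agent.H47.MC.Centre (c' : ℂ) (q j * n) ∧
        Pool.Agent.H47.MC.Step (q j) (c : ℂ) n (c' : ℂ)) :
    ∃ s : ℕ → ℝ, s 0 = 0 ∧ (∀ k, Pool.Agent.H47.MC.Centre (s k : ℂ) (nn q k)) ∧
      ∀ k, Pool.Agent.H47.MC.Step (q k) (s k : ℂ) (nn q k) (s (k + 1) : ℂ) := by
  have hstep : ∀ (j : ℕ) (p : {p : ℕ × ℝ // Pool.Agent.H47.MC.Centre (p.2 : ℂ) p.1}),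
      ∃ p' : {p : ℕ × ℝ // Pool.Agent.H47.MC.Centre (p.2 : ℂ) p.1},
        p'.1.1 = q j * p.1.1 ∧ Pool.Agent.H47.MC.Step (q j) (p.1.2 : ℂ) p.1.1 (p'.1.2 : ℂ) := by
    rintro j ⟨⟨n, c⟩, hc⟩
    obtain ⟨c', h1, h2⟩ := hS1 j c n hc
    exact ⟨⟨⟨q j * n, c'⟩, h1⟩, rfl, h2⟩
  choose next hnext1 hnext2 using hstep
  let t : ℕ → {p : ℕ × ℝ // Pool.Agent.H47.MC.Centre (p.2 : ℂ) p.1} :=
    fun k => Nat.rec ⟨⟨1, 0⟩, centre_zero⟩ (fun j p => next j p) k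
  have ht : ∀ k, t (k + 1) = next k (t k) := fun k => rfl
  have htn : ∀ k, (t k).1.1 = nn q k := by
    intro k
    induction k with
    | zero => rfl
    | succ k ih => rw [ht k, hnext1, ih, nn_succ]
  refine ⟨fun k => (t k).1.2, rfl, ?_, ?_⟩
  · intro k
    have h := (t k).2
    rw [htn k] at h
    exact h
  · intro k
    have h := hnext2 k (t k)
    rw [← ht k, htn k] at h
    exact h

/-- for each sequence of ratios at least 20, a real parameter which is infinitely renormalizable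
with the periods `nn q k`, and its centres -/
theorem seq (q : ℕ → ℕ) (hq : ∀ k, 20 ≤ q k) :
    ∃ (c : ℝ) (a : ℕ → ℝ), (∀ k, 1 ≤ k → IsRenorm (nn q k) (c : ℂ) ∧
        Pool.Agent.H47.MC.Good (c : ℂ) (nn q k) ∧
        ‖A (c : ℂ) (nn q k)‖ * ‖crit (c : ℂ) (nn q k)‖ ≤ 4) ∧
      (∀ k, Pool.Agent.H47.MC.Centre (a k : ℂ) (nn q k)) ∧
      (∀ k, ‖A (a k : ℂ) (nn q k)‖ * ‖Dp (a k : ℂ) (nn q k)‖ * ‖(c : ℂ) - a k‖ ≤ 2.5) ∧
      (∀ k, ‖A (a (k + 1) : ℂ) (nn q (k + 1))‖ * ‖Dp (a (k + 1) : ℂ) (nn q (k + 1))‖ ≤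
        25 ^ (q k) * (‖A (a k : ℂ) (nn q k)‖ * ‖Dp (a k : ℂ) (nn q k)‖)) ∧
      (∀ k, (10 : ℝ) ^ k ≤ ‖A (a k : ℂ) (nn q k)‖ * ‖Dp (a k : ℂ) (nn q k)‖) ∧
      a 0 = 0 ∧
      ∀ N : ℕ, (∀ k, q k ≤ N) → ∀ r : ℝ, 0 < r → r ≤ 1 → ∃ k, 1 ≤ k ∧ ‖(c : ℂ) - a k‖ ≤ r ∧
        r ≤ 2.5 * 25 ^ N / (‖A (a k : ℂ) (nn q k)‖ * ‖Dp (a k : ℂ) (nn q k)‖) := by
  have hq1 : ∀ k, 1 ≤ q k := fun k => le_trans (by norm_num) (hq k)
  -- the sequence of centres
  obtain ⟨s, hs0, hsC, hsS⟩ := exists_seq q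
    (fun j c n hc => Pool.Agent.H47.MC.rowS1 Pool.Agent.H10.MC.rowR' (hq j) hc)
  set c : ℕ → ℂ := fun k => ((s k : ℝ) : ℂ) with hcdef
  have hC : ∀ k, Pool.Agent.H47.MC.Centre (c k) (nn q k) := hsC
  have hS : ∀ k, Pool.Agent.H47.MC.Step (q k) (c k) (nn q k) (c (k + 1)) := hsS
  have hc0 : c 0 = 0 := by
    show ((s 0 : ℝ) : ℂ) = 0
    rw [hs0, Complex.ofReal_zero]
  obtain ⟨c', hlim, hd, hret⟩ := rowS2 hq1 Pool.Agent.H47.MC.rowP hC hS hc0
  have him : c'.im = 0 := by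
    have h1 : Tendsto (fun k => (c k).im) atTop (𝓝 c'.im) :=
      (Complex.continuous_im.tendsto c').comp hlim
    have h2 : (fun k => (c k).im) = fun _ => (0 : ℝ) := by
      funext k
      exact Complex.ofReal_im _
    rw [h2] at h1
    exact tendsto_nhds_unique h1 tendsto_const_nhds
  have hre : ((c'.re : ℝ) : ℂ) = c' := Complex.ext (by simp) (by simp [him])
  have hge : ∀ k, (10 : ℝ) ^ k ≤ ‖A (c k) (nn q k)‖ * ‖Dp (c k) (nn q k)‖ :=
    fun k => scale_ge (c := c) hS hc0 k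
  have hup : ∀ k, ‖A (c (k + 1)) (nn q (k + 1))‖ * ‖Dp (c (k + 1)) (nn q (k + 1))‖ ≤
      25 ^ (q k) * (‖A (c k) (nn q k)‖ * ‖Dp (c k) (nn q k)‖) := fun k => step_upper (c := c) hS k
  have hlast : ∀ N : ℕ, (∀ k, q k ≤ N) → ∀ r : ℝ, 0 < r → r ≤ 1 → ∃ k, 1 ≤ k ∧ ‖c' - c k‖ ≤ r ∧
      r ≤ 2.5 * 25 ^ N / (‖A (c k) (nn q k)‖ * ‖Dp (c k) (nn q k)‖) := by
    intro N hN r hr hr1
    refine scale_find (σ := fun k => ‖A (c k) (nn q k)‖ * ‖Dp (c k) (nn q k)‖)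
      (δ := fun k => ‖c' - c k‖) (M := 25 ^ N)
      (fun k => scale_pos hC k) (scale_zero hc0) hge (fun k => (hup k).trans ?_) hd hr hr1
    have h1 : (25 : ℝ) ^ (q k) ≤ 25 ^ N := pow_le_pow_right₀ (by norm_num) (hN k)
    exact mul_le_mul_of_nonneg_right h1 (scale_pos hC k).le
  refine ⟨c'.re, s, ?_, hC, ?_, hup, hge, hs0, ?_⟩
  · intro k hk
    rw [hre]
    have hn2 : 2 ≤ nn q k := by
      obtain ⟨j, rfl⟩ := Nat.exists_eq_add_of_le' hk
      rw [nn_succ]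
      exact le_trans (le_trans (by norm_num : 2 ≤ 20) (hq j)) (Nat.le_mul_of_pos_right _ (nn_pos hq1 j))
    have hnear : ∀ x, ‖A (c k) (nn q k)‖ * ‖x‖ ≤ 5 → Pool.Agent.H47.MC.Near (c k) (nn q k) c' x :=
      fun x hx => Pool.Agent.H47.MC.rowP (c k) (nn q k) (hC k) c' x ((hd k).trans (by norm_num)) hx
    refine ⟨Pool.Agent.H98.MC.isRenorm_of_near (hC k) hn2 (hd k) (hret k)
      (fun x hx => hnear x (hx.trans (by norm_num))), ?_⟩
    have h1 := hret k 1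
    rw [one_mul] at h1
    exact Pool.Agent.H98.MC.good_of_centre (hC k) hn2 (hnear 0 (by simp)) h1
  · intro k
    rw [hre]
    exact hd k
  · rw [hre]
    exact hlast

end Pool.Agent.H48.MC.G
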